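import Pool.Agent.Y604.SL.Gap

/-!
# Loading networks with two sigmoid hidden units: the gap version
-/

set_option autoImplicit false

namespace Pool.Agent.Results.MP_52a6f5_lc.SigmoidVersusHalfSpaces

open Pool.Agent.NPC Pool.Agent.W945.Sig Pool.Agent.NPC.Y604SL

/-- The loading problem is NP-hard. Moreover it is NP-hard to distinguish the samples separated by
an intersection of two half-spaces with small weights and margin one (they are all loadable) from
the samples which are not loadable by the architecture with two sigmoids. -/
theorem result : NPHardP Loadable ∧ (∀ I : Instance, TwoHalfSpaces I → Loadable I) ∧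
    (∀ P : Instance → Prop, (∀ I, TwoHalfSpaces I → P I) → (∀ I, P I → Loadable I) → NPHardP P) ∧
    ∀ L : Set (List Bool), InNP L → ∃ f : List Bool → Instance,
      PolyTime (fun x => bits (f x)) ∧ (∀ x, Few (f x)) ∧ (∀ x ∈ L, TwoHalfSpaces (f x)) ∧
        ∀ x, x ∉ L → ¬ Loadable (f x) :=
  ⟨hard_loadable, fun _ => loadable_of_two,
    fun _ h1 h2 => (hardPr_between h1 h2).toHardI.toNPHardP, gap⟩

end Pool.Agent.Results.MP_52a6f5_lc.SigmoidVersusHalfSpaces
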